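import Pool.Agent.helper62.LL.SpecE

/-!
# Row ll:CHN (MP_07c750_an): the chain rule
-/

set_option autoImplicit false

open scoped Topology
open MeasureTheory Filter Set

namespace Pool.Agent.LL

/-- the finite past as a word -/
def CHN_W {X : Type} (S : X → X) {p : ℕ} (P : X → Fin p) (n : ℕ) (x : X) : Fin n → Fin p := fun j => P (S^[(j : ℕ) + 1] x)

theorem CHN_past {X : Type} (S : X → X) {p : ℕ} (P : X → Fin p) (n : ℕ) :
    past S P n = MeasurableSpace.comap (CHN_W S P n) MeasurableSpace.pi := by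
  have h : (MeasurableSpace.pi : MeasurableSpace (Fin n → Fin p)) = ⨆ j : Fin n, MeasurableSpace.comap (fun w : Fin n → Fin p => w j) ⊤ := rfl
  rw [h, MeasurableSpace.comap_iSup]
  refine iSup_congr fun j => ?_
  rw [MeasurableSpace.comap_comp]
  rfl

theorem CHN_TS {X : Type} [MeasurableSpace X] {μ : Measure X} {T S : X → X} (h : Sys μ T S) (a b : ℕ) (x : X) :
    T^[a] (S^[a + b] x) = S^[b] x := by
  induction a with
  | zero => rw [zero_add]; rfl
  | succ a ih =>
    have e : a + 1 + b = (a + b) + 1 := by omega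
    rw [e, Function.iterate_succ_apply' S, Function.iterate_succ_apply T, h.ts, ih]

theorem CHN_ms {X : Type} [MeasurableSpace X] {μ : Measure X} {T S : X → X} (h : Sys μ T S) (n : ℕ) : MeasurePreserving S^[n] μ μ :=
  h.ms.iterate n

/-- the words seen in the past and in the future -/
theorem CHN_meas {X : Type} [MeasurableSpace X] {μ : Measure X} {T S : X → X} {p : ℕ} {P : X → Fin p} (h : Sys μ T S) (hP : Measurable P)
    (N n : ℕ) (a : ℕ) (hN : N + a = n + 1) (w : Fin N → Fin p) :
    μ.real {x | ∀ j : Fin N, P (S^[(j : ℕ) + a] x) = w j} = μ.real {y | ∀ i : Fin N, P (T^[i] y) = w (Fin.rev i)} := by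
  have hs : MeasurableSet {y | ∀ i : Fin N, P (T^[i] y) = w (Fin.rev i)} := by
    rw [Set.ofPred_forall]
    refine MeasurableSet.iInter fun i => ?_
    exact (hP.comp (h.mp.measurable.iterate _)) (measurableSet_singleton _)
  rw [← (CHN_ms h n).measureReal_preimage hs.nullMeasurableSet]
  congr 1
  ext x
  constructor
  · intro hx i
    have h1 := hx (Fin.rev i)
    have h2 := CHN_TS h (i : ℕ) ((Fin.rev i : ℕ) + a) x
    have h3 : (i : ℕ) + ((Fin.rev i : ℕ) + a) = n := by
      rw [Fin.val_rev]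
      have := i.2
      omega
    rw [h3] at h2
    rw [h2]
    exact h1
  · intro hx j
    have h1 := hx (Fin.rev j)
    have h2 := CHN_TS h (Fin.rev j : ℕ) ((j : ℕ) + a) x
    have h3 : (Fin.rev j : ℕ) + ((j : ℕ) + a) = n := by
      rw [Fin.val_rev]
      have := j.2
      omega
    rw [h3] at h2
    rw [h2, Fin.rev_rev] at h1
    exact h1

theorem CHN_Hn {X : Type} [MeasurableSpace X] {μ : Measure X} {T S : X → X} {p : ℕ} {P : X → Fin p} (h : Sys μ T S) (hP : Measurable P)
    (N n : ℕ) (a : ℕ) (hN : N + a = n + 1) :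
    EN.Hn μ T P N = ∑ w : Fin N → Fin p, Real.negMulLog (μ.real {x | ∀ j : Fin N, P (S^[(j : ℕ) + a] x) = w j}) := by
  unfold EN.Hn
  refine Fintype.sum_equiv (Equiv.arrowCongr Fin.revPerm (Equiv.refl _)) _ _ fun w => ?_
  rw [CHN_meas h hP N n a hN]
  congr 2
  ext y
  refine forall_congr' fun i => ?_
  show P (T^[i] y) = w i ↔ P (T^[i] y) = w (Fin.rev (Fin.rev i))
  rw [Fin.rev_rev]

theorem CHN_proof : CHN_stmt := by
  intro X mX μ T S p P n hμ hS hP
  set W := CHN_W S P n with hWd
  have hW : Measurable W := by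
    refine measurable_pi_lambda _ fun j => ?_
    exact hP.comp (hS.ms.measurable.iterate _)
  have hm : past S P n ≤ mX := by
    rw [CHN_past]
    exact hW.comap_le
  have hsing : ∀ i, MeasurableSet (P ⁻¹' {i}) := fun i => hP (measurableSet_singleton i)
  have hWs : ∀ w, MeasurableSet (W ⁻¹' {w}) := fun w => hW (measurableSet_singleton w)
  -- the conditional probabilities are functions of the word
  have hg : ∀ i, ∃ g : (Fin n → Fin p) → ℝ, ∀ x, cp (past S P n) μ P i x = g (W x) := by
    intro i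
    have h1 : StronglyMeasurable[past S P n] (cp (past S P n) μ P i) := stronglyMeasurable_condExp
    have h2 : StronglyMeasurable[MeasurableSpace.comap W MeasurableSpace.pi] (cp (past S P n) μ P i) := by
      rw [← CHN_past]
      exact h1
    obtain ⟨g, -, hg⟩ := h2.exists_eq_measurable_comp
    exact ⟨g, fun x => congrFun hg x⟩
  choose g hg using hg
  have key : ∀ F : (Fin n → Fin p) → ℝ, ∫ x, F (W x) ∂μ = ∑ w, μ.real (W ⁻¹' {w}) * F w := by
    intro F
    have h1 := integral_map (μ := μ) (φ := W) hW.aemeasurable (f := F) (measurable_of_countable F).aestronglyMeasurable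
    rw [← h1, integral_fintype (Integrable.of_finite)]
    refine Finset.sum_congr rfl fun w _ => ?_
    rw [map_measureReal_apply hW (measurableSet_singleton w), smul_eq_mul]
  -- the values
  have hq : ∀ i w, μ.real (P ⁻¹' {i} ∩ W ⁻¹' {w}) = μ.real (W ⁻¹' {w}) * g i w := by
    intro i w
    have hs : MeasurableSet[past S P n] (W ⁻¹' {w}) := by
      rw [CHN_past]
      exact ⟨{w}, measurableSet_singleton w, rfl⟩
    have hi : Integrable ((P ⁻¹' {i}).indicator (fun _ => (1 : ℝ))) μ := (integrable_const (1 : ℝ)).indicator (hsing i)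
    have h1 := setIntegral_condExp hm hi hs
    have h2 : ∫ x in W ⁻¹' {w}, (P ⁻¹' {i}).indicator (fun _ => (1 : ℝ)) x ∂μ = μ.real (P ⁻¹' {i} ∩ W ⁻¹' {w}) := by
      rw [integral_indicator (hsing i)]
      simp only [integral_const, smul_eq_mul, mul_one]
      rw [measureReal_def, measureReal_def, Measure.restrict_apply MeasurableSet.univ, univ_inter,
        Measure.restrict_apply (hsing i)]
    have h3 : ∫ x in W ⁻¹' {w}, (μ[(P ⁻¹' {i}).indicator (fun _ => (1 : ℝ)) | past S P n]) x ∂μ = μ.real (W ⁻¹' {w}) * g i w := by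
      have h4 : ∀ x ∈ W ⁻¹' {w}, (μ[(P ⁻¹' {i}).indicator (fun _ => (1 : ℝ)) | past S P n]) x = g i w := by
        intro x hx
        have h5 := hg i x
        rw [show W x = w from hx] at h5
        exact h5
      rw [setIntegral_congr_fun (hWs w) h4]
      simp
    rw [← h2, ← h1, h3]
  have hsum : ∀ w, ∑ i, μ.real (P ⁻¹' {i} ∩ W ⁻¹' {w}) = μ.real (W ⁻¹' {w}) := by
    intro w
    rw [← measureReal_biUnion_finset]
    · congr 1
      ext x
      simp
    · intro i _ j _ hij
      refine Set.disjoint_left.2 fun x h1 h2 => hij ?_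
      exact (Eq.symm h1.1).trans h2.1
    · exact fun i _ => (hsing i).inter (hWs w)
  -- the entropies
  have e1 : EN.Hn μ T P n = ∑ w, Real.negMulLog (μ.real (W ⁻¹' {w})) := by
    rw [CHN_Hn hS hP n n 1 rfl]
    refine Finset.sum_congr rfl fun w _ => ?_
    congr 2
    ext x
    exact ⟨fun h => funext h, fun h j => congrFun h j⟩
  have e2 : EN.Hn μ T P (n + 1) = ∑ w, ∑ i, Real.negMulLog (μ.real (P ⁻¹' {i} ∩ W ⁻¹' {w})) := by
    rw [CHN_Hn hS hP (n + 1) n 0 rfl, Finset.sum_comm, ← Fintype.sum_prod_type']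
    refine Fintype.sum_equiv (Fin.consEquiv (fun _ : Fin (n + 1) => Fin p)).symm _ _ fun v => ?_
    congr 2
    ext x
    constructor
    · intro h
      exact ⟨h 0, funext fun j => h j.succ⟩
    · rintro ⟨h1, h2⟩ j
      refine Fin.cases h1 (fun j => congrFun h2 j) j
  have e3 : ∫ x, ∑ i, Real.negMulLog (cp (past S P n) μ P i x) ∂μ = ∑ w, μ.real (W ⁻¹' {w}) * ∑ i, Real.negMulLog (g i w) := by
    rw [← key fun w => ∑ i, Real.negMulLog (g i w)]
    refine integral_congr_ae (Eventually.of_forall fun x => ?_)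
    exact Finset.sum_congr rfl fun i _ => by rw [hg i x]
  rw [e1, e2, e3, ← Finset.sum_add_distrib]
  refine Finset.sum_congr rfl fun w _ => ?_
  have h6 : ∀ i, Real.negMulLog (μ.real (P ⁻¹' {i} ∩ W ⁻¹' {w})) =
      g i w * Real.negMulLog (μ.real (W ⁻¹' {w})) + μ.real (W ⁻¹' {w}) * Real.negMulLog (g i w) := by
    intro i
    rw [hq, Real.negMulLog_mul]
  rw [Finset.sum_congr rfl fun i _ => h6 i, Finset.sum_add_distrib, ← Finset.sum_mul, ← Finset.mul_sum]
  congr 1
  have h7 := hsum w
  rw [Finset.sum_congr rfl fun i _ => hq i w, ← Finset.mul_sum] at h7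
  by_cases h8 : μ.real (W ⁻¹' {w}) = 0
  · rw [h8]
    simp
  · rw [mul_eq_left₀ h8 |>.1 h7, one_mul]

end Pool.Agent.LL
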