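import Pool.Agent.helper62.LL.SpecE

/-!
# Row ll:INF (MP_07c750_an): the information function
-/

set_option autoImplicit false

open scoped Topology
open MeasureTheory Filter Set

namespace Pool.Agent.LL

/-- the cut off logarithm -/
noncomputable def INF_g (L t : ℝ) : ℝ := max 0 (min (-Real.log t) L)

theorem INF_meas (L : ℝ) : Measurable (INF_g L) := by
  unfold INF_g
  exact measurable_const.max (Real.measurable_log.neg.min measurable_const)

theorem INF_nonneg (L t : ℝ) : 0 ≤ INF_g L t := le_max_left _ _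

theorem INF_le (L t : ℝ) (hL : 0 ≤ L) : INF_g L t ≤ L := max_le hL (min_le_right _ _)

theorem INF_mul (L t : ℝ) (h0 : 0 ≤ t) (h1 : t ≤ 1) : t * INF_g L t ≤ Real.negMulLog t := by
  have h2 : INF_g L t ≤ -Real.log t := by
    refine max_le ?_ (min_le_left _ _)
    have := Real.log_nonpos h0 h1
    linarith
  have h3 := mul_le_mul_of_nonneg_left h2 h0
  unfold Real.negMulLog
  linarith

theorem INF_ev (t : ℝ) (h0 : 0 ≤ t) (h1 : t ≤ 1) :
    ∀ᶠ n : ℕ in atTop, t * INF_g (n : ℝ) t = Real.negMulLog t := by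
  have h2 : ∀ᶠ n : ℕ in atTop, -Real.log t ≤ (n : ℝ) := by
    filter_upwards [eventually_ge_atTop (⌈-Real.log t⌉₊)] with n hn
    exact (Nat.le_ceil _).trans (by exact_mod_cast hn)
  filter_upwards [h2] with n hn
  have h3 : INF_g (n : ℝ) t = -Real.log t := by
    unfold INF_g
    rw [min_eq_left hn]
    have := Real.log_nonpos h0 h1
    exact max_eq_right (by linarith)
  rw [h3]
  unfold Real.negMulLog
  ring

section
variable {X : Type} {m : MeasurableSpace X} [mX : MeasurableSpace X] {μ : Measure X} {p : ℕ} {P : X → Fin p}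

theorem INF_sm (i : Fin p) : StronglyMeasurable[m] (cp m μ P i) := stronglyMeasurable_condExp

theorem INF_int [IsProbabilityMeasure μ] (hP : Measurable P) (i : Fin p) :
    Integrable ((P ⁻¹' {i}).indicator (fun _ => (1 : ℝ))) μ :=
  (integrable_const (1 : ℝ)).indicator (hP (measurableSet_singleton i))

theorem INF_01 [IsProbabilityMeasure μ] (hm : m ≤ mX) (hP : Measurable P) (i : Fin p) :
    ∀ᵐ x ∂μ, 0 ≤ cp m μ P i x ∧ cp m μ P i x ≤ 1 := by
  have h1 : ∀ᵐ x ∂μ, 0 ≤ cp m μ P i x := by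
    have := condExp_nonneg (m := m) (μ := μ) (f := (P ⁻¹' {i}).indicator (fun _ => (1 : ℝ)))
      (Eventually.of_forall fun x => Set.indicator_nonneg (fun _ _ => zero_le_one) x)
    filter_upwards [this] with x hx using hx
  have h2 : ∀ᵐ x ∂μ, cp m μ P i x ≤ 1 := by
    have := condExp_mono (m := m) (μ := μ) (INF_int hP i) (integrable_const (1 : ℝ))
      (Eventually.of_forall fun x => Set.indicator_le_self' (fun _ _ => zero_le_one) x)
    rw [condExp_const hm (1 : ℝ)] at this
    filter_upwards [this] with x hx using hx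
  filter_upwards [h1, h2] with x a b using ⟨a, b⟩

theorem INF_pos [IsProbabilityMeasure μ] (hm : m ≤ mX) (hP : Measurable P) (i : Fin p) :
    ∀ᵐ x ∂μ, P x = i → 0 < cp m μ P i x := by
  have hs : MeasurableSet[m] {x | cp m μ P i x ≤ 0} :=
    (INF_sm i).measurable measurableSet_Iic
  have h1 := setIntegral_condExp hm (INF_int (μ := μ) hP i) hs
  have h2 : ∫ x in {x | cp m μ P i x ≤ 0}, cp m μ P i x ∂μ ≤ 0 := by
    refine setIntegral_nonpos (hm _ hs) fun x hx => hx
  have h3 : ∫ x in {x | cp m μ P i x ≤ 0}, (P ⁻¹' {i}).indicator (fun _ => (1 : ℝ)) x ∂μ =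
      μ.real ((P ⁻¹' {i}) ∩ {x | cp m μ P i x ≤ 0}) := by
    rw [integral_indicator (hP (measurableSet_singleton i))]
    simp only [integral_const, smul_eq_mul, mul_one]
    rw [measureReal_def, measureReal_def, Measure.restrict_apply MeasurableSet.univ, univ_inter,
      Measure.restrict_apply (hP (measurableSet_singleton i))]
  have h4 : μ.real ((P ⁻¹' {i}) ∩ {x | cp m μ P i x ≤ 0}) = 0 := by
    refine le_antisymm ?_ measureReal_nonneg
    rw [← h3, ← h1]
    exact h2
  have h5 : μ ((P ⁻¹' {i}) ∩ {x | cp m μ P i x ≤ 0}) = 0 := by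
    rwa [measureReal_eq_zero_iff] at h4
  rw [measure_eq_zero_iff_ae_notMem] at h5
  filter_upwards [h5] with x hx hx2
  by_contra h6
  exact hx ⟨hx2, not_lt.1 h6⟩

theorem INF_gI (L : ℝ) (x : X) : gI L m μ P x = ∑ i, (P ⁻¹' {i}).indicator (fun x => INF_g L (cp m μ P i x)) x := by
  rw [Finset.sum_eq_single (P x)]
  · rw [Set.indicator_of_mem (show x ∈ P ⁻¹' {P x} from rfl)]
    rfl
  · intro i _ hi
    have h1 : x ∉ P ⁻¹' {i} := fun h => hi (Eq.symm h)
    exact Set.indicator_of_notMem h1 _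
  · intro h
    exact absurd (Finset.mem_univ _) h

theorem INF_pull [IsProbabilityMeasure μ] (hm : m ≤ mX) (hP : Measurable P) (L : ℝ) (hL : 0 ≤ L) (i : Fin p) :
    ∫ x, (P ⁻¹' {i}).indicator (fun x => INF_g L (cp m μ P i x)) x ∂μ = ∫ x, cp m μ P i x * INF_g L (cp m μ P i x) ∂μ := by
  set f : X → ℝ := fun x => INF_g L (cp m μ P i x) with hf
  have hfm : StronglyMeasurable[m] f := ((INF_meas L).comp (INF_sm i).measurable).stronglyMeasurable
  have hfm' : AEStronglyMeasurable f μ := (hfm.mono hm).aestronglyMeasurable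
  have hb : ∀ x, ‖f x‖ ≤ L := fun x => by
    rw [Real.norm_eq_abs, abs_of_nonneg (INF_nonneg _ _)]
    exact INF_le _ _ hL
  have hint : Integrable (f * (P ⁻¹' {i}).indicator (fun _ => (1 : ℝ))) μ :=
    (INF_int hP i).bdd_mul hfm' (Eventually.of_forall hb)
  have h1 := condExp_mul_of_stronglyMeasurable_left hfm hint (INF_int hP i)
  have h2 := integral_condExp (μ := μ) (f := f * (P ⁻¹' {i}).indicator (fun _ => (1 : ℝ))) hm
  rw [integral_congr_ae h1] at h2
  have h3 : ∀ x, (P ⁻¹' {i}).indicator f x = (f * (P ⁻¹' {i}).indicator (fun _ => (1 : ℝ))) x := by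
    intro x
    rw [Pi.mul_apply]
    by_cases hx : x ∈ P ⁻¹' {i}
    · rw [Set.indicator_of_mem hx, Set.indicator_of_mem hx, mul_one]
    · rw [Set.indicator_of_notMem hx, Set.indicator_of_notMem hx, mul_zero]
  rw [integral_congr_ae (Eventually.of_forall h3), ← h2]
  refine integral_congr_ae (Eventually.of_forall fun x => ?_)
  show f x * cp m μ P i x = cp m μ P i x * f x
  ring

end

theorem INF_proof : INF_stmt := by
  intro X m mX μ p P hμ hm hP
  have h01 : ∀ᵐ x ∂μ, ∀ i, 0 ≤ cp m μ P i x ∧ cp m μ P i x ≤ 1 := ae_all_iff.2 fun i => INF_01 hm hP i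
  have hpos : ∀ᵐ x ∂μ, ∀ i, P x = i → 0 < cp m μ P i x := ae_all_iff.2 fun i => INF_pos hm hP i
  have hcm : ∀ i, Measurable (cp m μ P i) := fun i => ((INF_sm i).mono hm).measurable
  have hgm : ∀ L, Measurable (gI L m μ P) := by
    intro L
    have e : gI L m μ P = fun x => ∑ i, (P ⁻¹' {i}).indicator (fun x => INF_g L (cp m μ P i x)) x := funext (INF_gI L)
    rw [e]
    exact Finset.measurable_sum _ fun i _ => ((INF_meas L).comp (hcm i)).indicator (hP (measurableSet_singleton i))
  refine ⟨?_, hgm, ?_⟩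
  · filter_upwards [h01, hpos] with x a b
    exact ⟨b (P x) rfl, (a (P x)).2⟩
  intro ε hε
  have hlim : Tendsto (fun n : ℕ => ∫ x, ∑ i, cp m μ P i x * INF_g (n : ℝ) (cp m μ P i x) ∂μ) atTop
      (𝓝 (∫ x, ∑ i, Real.negMulLog (cp m μ P i x) ∂μ)) := by
    refine tendsto_integral_of_dominated_convergence (fun _ => (p : ℝ)) ?_ (integrable_const _) ?_ ?_
    · intro n
      exact (Finset.measurable_sum _ fun i _ => (hcm i).mul ((INF_meas _).comp (hcm i))).aestronglyMeasurable
    · intro n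
      filter_upwards [h01] with x hx
      have h1 : ∀ i ∈ Finset.univ, cp m μ P i x * INF_g (n : ℝ) (cp m μ P i x) ≤ 1 := by
        intro i _
        have h2 := INF_mul (n : ℝ) _ (hx i).1 (hx i).2
        have h3 := Real.negMulLog_le_one_sub_self (hx i).1
        have h4 := (hx i).1
        linarith
      have h2 : ∀ i ∈ Finset.univ, 0 ≤ cp m μ P i x * INF_g (n : ℝ) (cp m μ P i x) :=
        fun i _ => mul_nonneg (hx i).1 (INF_nonneg _ _)
      rw [Real.norm_eq_abs, abs_of_nonneg (Finset.sum_nonneg h2)]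
      refine (Finset.sum_le_sum h1).trans (le_of_eq ?_)
      simp
    · filter_upwards [h01] with x hx
      refine tendsto_finsetSum _ fun i _ => ?_
      exact tendsto_const_nhds.congr' ((INF_ev _ (hx i).1 (hx i).2).mono fun n hn => hn.symm)
  have hev := (hlim.eventually (lt_mem_nhds (show ∫ x, ∑ i, Real.negMulLog (cp m μ P i x) ∂μ - ε <
    ∫ x, ∑ i, Real.negMulLog (cp m μ P i x) ∂μ by linarith))).and (eventually_ge_atTop 1)
  obtain ⟨n, hn, hn1⟩ := hev.exists
  refine ⟨n, by exact_mod_cast (by omega : 0 < n), ?_⟩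
  have hn0 : (0 : ℝ) ≤ n := Nat.cast_nonneg n
  have hi1 : ∀ i, Integrable ((P ⁻¹' {i}).indicator (fun x => INF_g (n : ℝ) (cp m μ P i x))) μ := by
    intro i
    refine Integrable.indicator ?_ (hP (measurableSet_singleton i))
    refine Integrable.of_bound ((INF_meas _).comp (hcm i)).aestronglyMeasurable (n : ℝ) (Eventually.of_forall fun x => ?_)
    rw [Real.norm_eq_abs, abs_of_nonneg (INF_nonneg _ _)]
    exact INF_le _ _ hn0
  have hi2 : ∀ i, Integrable (fun x => cp m μ P i x * INF_g (n : ℝ) (cp m μ P i x)) μ := by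
    intro i
    refine Integrable.of_bound ((hcm i).mul ((INF_meas _).comp (hcm i))).aestronglyMeasurable 1 ?_
    filter_upwards [h01] with x hx
    rw [Real.norm_eq_abs, abs_of_nonneg (mul_nonneg (hx i).1 (INF_nonneg _ _))]
    have h2 := INF_mul (n : ℝ) _ (hx i).1 (hx i).2
    have h3 := Real.negMulLog_le_one_sub_self (hx i).1
    have h4 := (hx i).1
    linarith
  have e1 : ∫ x, gI (n : ℝ) m μ P x ∂μ = ∫ x, ∑ i, cp m μ P i x * INF_g (n : ℝ) (cp m μ P i x) ∂μ := by
    rw [integral_congr_ae (Eventually.of_forall (INF_gI (n : ℝ))), integral_finsetSum _ fun i _ => hi1 i,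
      integral_finsetSum _ fun i _ => hi2 i]
    exact Finset.sum_congr rfl fun i _ => INF_pull hm hP _ hn0 i
  rw [e1]
  exact hn.le

end Pool.Agent.LL
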